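import Pool.Agent.H397R2.PP.TH
import Pool.Agent.H413R3.Part.Pt

set_option autoImplicit false

/-!
# The partition generating function modulo 2: basic identities

`E = ∏ (1 - X ^ n)`, `P = 1 / E`, `T = E ^ 3` over `ZMod 2`; `c3` is the substitution `X → X ^ 3`.
-/

namespace Pool.Agent.TH693.PP

open PowerSeries

abbrev S := (ZMod 2)⟦X⟧

/-- substitution `X → X ^ 3` -/
noncomputable def c3 : S →ₐ[ZMod 2] S := PowerSeries.expand 3 (by norm_num)

/-- `∏ (1 - X ^ n)` modulo 2 -/
noncomputable def E : S := pentagonalSeries (ZMod 2)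

/-- the cube of `E` -/
noncomputable def T : S := E ^ 3

/-- the partition generating function modulo 2 -/
noncomputable def P : S := PowerSeries.mk fun n => (Fintype.card (Nat.Partition n) : ZMod 2)

theorem P_mul_E : P * E = 1 := Pool.Agent.H397R2.PP.mk_card_mul_pentagonalSeries (ZMod 2)

theorem two_zero : (2 : S) = 0 := by
  have h : (2 : S) = PowerSeries.C (2 : ZMod 2) := by
    rw [map_ofNat]
  rw [h, show (2 : ZMod 2) = 0 from rfl, map_zero]

theorem add_self (a : S) : a + a = 0 := by
  linear_combination a * two_zero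

theorem neg_eq (a : S) : -a = a := by
  linear_combination -a * two_zero

theorem sub_eq (a b : S) : a - b = a + b := by
  linear_combination -b * two_zero

theorem add_sq (a b : S) : (a + b) ^ 2 = a ^ 2 + b ^ 2 := by
  linear_combination a * b * two_zero

theorem add_four (a b : S) : (a + b) ^ 4 = a ^ 4 + b ^ 4 := by
  have h : ∀ c : S, c ^ 4 = (c ^ 2) ^ 2 := fun c => by ring
  rw [h, add_sq, add_sq, ← h, ← h]

theorem add_eight (a b : S) : (a + b) ^ 8 = a ^ 8 + b ^ 8 := by
  have h : ∀ c : S, c ^ 8 = (c ^ 4) ^ 2 := fun c => by ring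
  rw [h, add_four, add_sq, ← h, ← h]

theorem eq_of_add {a b : S} (h : a + b = 0) : a = b := by
  linear_combination h - b * two_zero

theorem c3_X : c3 (X : S) = X ^ 3 := by
  unfold c3
  exact PowerSeries.expand_X 3 (by norm_num)

theorem X_ne : (X : S) ≠ 0 := PowerSeries.X_ne_zero

/-- the modular equation of degree 3 -/
theorem modT : T ^ 4 = T * c3 T + X * c3 T ^ 4 := by
  have h := Pool.Agent.H397R2.PP.modular_equation
  unfold Pool.Agent.H397R2.PP.Db at h
  change (X * E ^ 24) ^ 4 = (X * E ^ 24) * c3 (X * E ^ 24) + c3 (X * E ^ 24) ^ 4 at h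
  rw [map_mul, map_pow, c3_X] at h
  have h2 : X ^ 4 * (T ^ 4 + (T * c3 T + X * c3 T ^ 4)) ^ 8 = 0 := by
    rw [add_eight, add_eight]
    unfold T
    rw [map_pow]
    linear_combination h + (X ^ 4 * E ^ 24 * c3 E ^ 24 + X ^ 12 * c3 E ^ 96) * two_zero
  rcases mul_eq_zero.1 h2 with h3 | h3
  · exact absurd (pow_eq_zero_iff (by norm_num) |>.1 h3) X_ne
  · exact eq_of_add (pow_eq_zero_iff (by norm_num) |>.1 h3)

theorem constE : constantCoeff E = 1 := by
  have h := congrArg constantCoeff P_mul_E
  rw [map_mul, map_one] at h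
  have h2 : ∀ a b : ZMod 2, a * b = 1 → b = 1 := by decide
  exact h2 _ _ h

theorem constP : constantCoeff P = 1 := by
  have h := congrArg constantCoeff P_mul_E
  rw [map_mul, map_one, constE, mul_one] at h
  exact h

theorem constc3 (a : S) : constantCoeff (c3 a) = constantCoeff a := by
  unfold c3
  rw [← coeff_zero_eq_constantCoeff_apply, ← coeff_zero_eq_constantCoeff_apply]
  have := PowerSeries.coeff_expand_mul 3 (by norm_num) a 0
  simpa using this

theorem constT : constantCoeff T = 1 := by
  unfold T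
  rw [map_pow, constE, one_pow]

theorem unit_of {a : S} (h : constantCoeff a = 1) : IsUnit a := by
  rw [PowerSeries.isUnit_iff_constantCoeff, h]
  exact isUnit_one

/-- cancel a unit -/
theorem dvd_cancel {a b : S} {n : ℕ} (ha : constantCoeff a = 1) (h : X ^ n ∣ a * b) : X ^ n ∣ b := by
  obtain ⟨u, hu⟩ := unit_of ha
  rw [← hu] at h
  exact (Units.dvd_mul_left).1 h

end Pool.Agent.TH693.PP
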