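import Pool.Agent.TH693.PP.Main

set_option autoImplicit false

/-!
# From rational approximations to linear patterns
-/

namespace Pool.Agent.TH693.PP

open PowerSeries

/-- bounded irrationality measure: `X ^ N ∣ V f - U` with `V ≠ 0` forces
`N ≤ C (deg U + deg V) + 1` -/
def Bd (C : ℕ) (f : S) : Prop :=
  ∀ (N : ℕ) (U V : F), V ≠ 0 → (X : S) ^ N ∣ (V : S) * f + (U : S) →
    N ≤ C * (U.natDegree + V.natDegree) + 1

theorem bd_odd {t : ℕ} (ht : Odd t) : Bd 64 (P ^ t) := approx ht

/-- the polynomial of a linear pattern -/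
noncomputable def pat (L : ℕ) (c : Fin (L + 1) → ZMod 2) : F :=
  ∑ i : Fin (L + 1), Polynomial.C (c i) * Polynomial.X ^ (L - (i : ℕ))

theorem pat_deg (L : ℕ) (c : Fin (L + 1) → ZMod 2) : (pat L c).natDegree ≤ L := by
  unfold pat
  refine Polynomial.natDegree_sum_le_of_forall_le _ _ fun i _ => ?_
  refine (Polynomial.natDegree_C_mul_X_pow_le _ _).trans (by omega)

theorem pat_ne (L : ℕ) (c : Fin (L + 1) → ZMod 2) (hc : c ≠ 0) : pat L c ≠ 0 := by
  intro h
  apply hc
  funext i
  have h1 := congrArg (fun g : F => g.coeff (L - (i : ℕ))) h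
  simp only [pat, Polynomial.finsetSum_coeff, Polynomial.coeff_C_mul_X_pow, Polynomial.coeff_zero] at h1
  rw [Finset.sum_eq_single i] at h1
  · simpa using h1
  · intro j _ hj
    rw [if_neg]
    intro h2
    apply hj
    ext
    omega
  · intro h2
    exact absurd (Finset.mem_univ _) h2

theorem coeff_pat (L : ℕ) (c : Fin (L + 1) → ZMod 2) (f : S) (n : ℕ) :
    coeff (n + L) ((pat L c : S) * f) = ∑ i : Fin (L + 1), c i * coeff (n + i) f := by
  have e : (pat L c : S) = ∑ i : Fin (L + 1), PowerSeries.C (c i) * X ^ (L - (i : ℕ)) := by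
    unfold pat
    have : ((∑ i : Fin (L + 1), Polynomial.C (c i) * Polynomial.X ^ (L - (i : ℕ)) : F) : S) =
        ∑ i : Fin (L + 1), ((Polynomial.C (c i) * Polynomial.X ^ (L - (i : ℕ)) : F) : S) := by
      rw [← Polynomial.coeToPowerSeries.ringHom_apply, map_sum]
      rfl
    rw [this]
    refine Finset.sum_congr rfl fun i _ => ?_
    push_cast
    rfl
  rw [e, Finset.sum_mul, map_sum]
  refine Finset.sum_congr rfl fun i _ => ?_
  rw [mul_assoc, PowerSeries.coeff_C_mul, PowerSeries.coeff_X_pow_mul', if_pos (by omega)]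
  congr 2
  congr 1
  have := i.2
  omega

/-- runs of a linear pattern are short -/
theorem run_le {C : ℕ} (hC : 1 ≤ C) {f : S} (hf : Bd C f) (L : ℕ) (c : Fin (L + 1) → ZMod 2)
    (hc : c ≠ 0) (κ : ZMod 2) (A B : ℕ)
    (h : ∀ n, A ≤ n → n < B → ∑ i : Fin (L + 1), c i * coeff (n + i) f = κ) :
    B ≤ C * (A + 2 * L + 2) := by
  set V : F := (1 + Polynomial.X) * pat L c with hV
  have h1X : (1 + Polynomial.X : F) ≠ 0 := by
    intro h0
    have := congrArg (fun g : F => g.coeff 0) h0
    simp at this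
  have hV0 : V ≠ 0 := mul_ne_zero h1X (pat_ne L c hc)
  set g : S := (V : S) * f with hg
  set U : F := PowerSeries.trunc (A + L + 1) g with hU
  have hVd : V.natDegree ≤ L + 1 := by
    have q := Polynomial.natDegree_mul_le (p := (1 + Polynomial.X : F)) (q := pat L c)
    have q1 : (1 + Polynomial.X : F).natDegree ≤ 1 := by
      have := Polynomial.natDegree_add_le (1 : F) Polynomial.X
      rw [Polynomial.natDegree_one, Polynomial.natDegree_X] at this
      simpa using this
    have q2 := pat_deg L c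
    rw [hV]
    omega
  have hUd : U.natDegree ≤ A + L := by
    have := PowerSeries.natDegree_trunc_lt g (A + L)
    rw [hU]
    omega
  have hdiv : (X : S) ^ (B + L) ∣ (V : S) * f + (U : S) := by
    rw [PowerSeries.X_pow_dvd_iff]
    intro m hm
    rw [map_add, ← hg, Polynomial.coeff_coe, hU, PowerSeries.coeff_trunc]
    split_ifs with h2
    · exact (by decide : ∀ a : ZMod 2, a + a = 0) _
    · rw [add_zero]
      obtain ⟨n, rfl⟩ : ∃ n, m = n + L + 1 := ⟨m - L - 1, by omega⟩
      have e : g = (pat L c : S) * f + X * ((pat L c : S) * f) := by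
        rw [hg, hV]
        push_cast
        ring
      rw [e, map_add, PowerSeries.coeff_succ_X_mul, coeff_pat, h n (by omega) (by omega)]
      have e2 : n + L + 1 = (n + 1) + L := by ring
      rw [e2, coeff_pat, h (n + 1) (by omega) (by omega)]
      exact (by decide : ∀ a : ZMod 2, a + a = 0) _
  have h3 := hf _ _ _ hV0 hdiv
  have h4 : C * (U.natDegree + V.natDegree) ≤ C * (A + 2 * L + 1) := Nat.mul_le_mul_left C (by omega)
  have h5 : C * (A + 2 * L + 2) = C * (A + 2 * L + 1) + C := by ring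
  omega

theorem takes {C : ℕ} (hC : 1 ≤ C) {f : S} (hf : Bd C f) (L : ℕ) (c : Fin (L + 1) → ZMod 2)
    (hc : c ≠ 0) (κ : ZMod 2) (A : ℕ) :
    ∃ n, A ≤ n ∧ n ≤ C * (A + 2 * L + 2) ∧ ∑ i : Fin (L + 1), c i * coeff (n + i) f = κ := by
  by_contra h
  push Not at h
  have h1 : ∀ a b : ZMod 2, a ≠ b → a = b + 1 := by decide
  have := run_le hC hf L c hc (κ + 1) A (C * (A + 2 * L + 2) + 1)
    (fun n h2 h3 => h1 _ _ (h n h2 (by omega)))
  omega

end Pool.Agent.TH693.PP
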