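import Pool.Agent.TH693.PP.Odd

set_option autoImplicit false

/-!
# Rational approximations of odd powers of the partition generating function: the bound
-/

namespace Pool.Agent.TH693.PP

open PowerSeries

theorem F_two_zero : (2 : F) = 0 := by
  have h : (2 : F) = Polynomial.C (2 : ZMod 2) := by
    rw [map_ofNat]
  rw [h, show (2 : ZMod 2) = 0 from rfl, map_zero]

theorem exists_sq (f : F) : ∃ a b : F, f = a ^ 2 + Polynomial.X * b ^ 2 ∧
    2 * a.natDegree ≤ f.natDegree ∧ (a ≠ 0 → f ≠ 0) ∧ (b ≠ 0 → 2 * b.natDegree + 1 ≤ f.natDegree) := by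
  have ca : ∀ (g : F) (n : ℕ), (Polynomial.contract 2 g).coeff n = g.coeff (n * 2) := fun g n =>
    Polynomial.coeff_contract (by norm_num) g n
  refine ⟨Polynomial.contract 2 f, Polynomial.contract 2 f.divX, ?_, ?_, ?_, ?_⟩
  · rw [← ZMod.expand_card, ← ZMod.expand_card]
    ext n
    rw [Polynomial.coeff_add]
    rcases n with _ | n
    · rw [Polynomial.mul_coeff_zero, Polynomial.coeff_X_zero, zero_mul, add_zero,
        Polynomial.coeff_expand (by norm_num), if_pos (by norm_num), ca]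
    · rw [Polynomial.coeff_X_mul, Polynomial.coeff_expand (by norm_num),
        Polynomial.coeff_expand (by norm_num)]
      rcases Nat.even_or_odd' n with ⟨k, rfl | rfl⟩
      · rw [if_neg (by omega), if_pos (by omega), ca, Polynomial.coeff_divX, zero_add]
        congr 1
        omega
      · rw [if_pos (by omega), if_neg (by omega), ca, add_zero]
        congr 1
        omega
  · by_cases h : Polynomial.contract 2 f = 0
    · rw [h]; simp
    · have h1 : (Polynomial.contract 2 f).coeff (Polynomial.contract 2 f).natDegree ≠ 0 :=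
        Polynomial.leadingCoeff_ne_zero.2 h
      rw [ca] at h1
      have := Polynomial.le_natDegree_of_ne_zero h1
      omega
  · rintro h rfl
    apply h
    ext n
    rw [ca]
    simp
  · intro h
    have h1 : (Polynomial.contract 2 f.divX).coeff (Polynomial.contract 2 f.divX).natDegree ≠ 0 :=
      Polynomial.leadingCoeff_ne_zero.2 h
    rw [ca, Polynomial.coeff_divX] at h1
    have := Polynomial.le_natDegree_of_ne_zero h1
    omega

theorem exists_four (f : F) : ∃ f0 f1 f2 f3 : F,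
    f = f0 ^ 4 + Polynomial.X * f1 ^ 4 + Polynomial.X ^ 2 * f2 ^ 4 + Polynomial.X ^ 3 * f3 ^ 4 ∧
    4 * f0.natDegree ≤ f.natDegree ∧ (f1 ≠ 0 → 4 * f1.natDegree + 1 ≤ f.natDegree) := by
  obtain ⟨a, b, h1, h2, -, h4⟩ := exists_sq f
  obtain ⟨a0, a1, k1, k2, -, -⟩ := exists_sq a
  obtain ⟨b0, b1, l1, l2, l3, -⟩ := exists_sq b
  refine ⟨a0, b0, a1, b1, ?_, by omega, ?_⟩
  · have e1 : a ^ 2 = a0 ^ 4 + Polynomial.X ^ 2 * a1 ^ 4 := by
      rw [k1]
      linear_combination (a0 ^ 2 * Polynomial.X * a1 ^ 2) * F_two_zero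
    have e2 : b ^ 2 = b0 ^ 4 + Polynomial.X ^ 2 * b1 ^ 4 := by
      rw [l1]
      linear_combination (b0 ^ 2 * Polynomial.X * b1 ^ 2) * F_two_zero
    linear_combination h1 + e1 + Polynomial.X * e2
  · intro h
    have := h4 (l3 h)
    omega

theorem sq_dvd (n : ℕ) : ∀ z : S, (X : S) ^ (2 * n + 1) ∣ z ^ 2 → (X : S) ^ (n + 1) ∣ z := by
  induction n with
  | zero =>
    intro z h
    rw [zero_add, pow_one]
    exact PowerSeries.X_prime.dvd_of_dvd_pow (by simpa using h)
  | succ n ih =>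
    intro z h
    have h1 : (X : S) ∣ z := PowerSeries.X_prime.dvd_of_dvd_pow
      ((dvd_pow_self X (by omega)).trans h)
    obtain ⟨w, rfl⟩ := h1
    have e : (X : S) ^ (2 * (n + 1) + 1) = X ^ 2 * X ^ (2 * n + 1) := by ring
    rw [e, mul_pow] at h
    have h2 := (mul_dvd_mul_iff_left (pow_ne_zero 2 X_ne)).1 h
    rw [pow_succ']
    exact mul_dvd_mul_left X (ih w h2)

theorem sqX_dvd (n : ℕ) : ∀ x y : S, (X : S) ^ (2 * n + 1) ∣ x ^ 2 + X * y ^ 2 → (X : S) ^ (n + 1) ∣ x := by
  induction n with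
  | zero =>
    intro x y h
    rw [zero_add, pow_one]
    rw [mul_zero, zero_add, pow_one] at h
    have h1 : (X : S) ∣ x ^ 2 := by
      have := dvd_sub h (Dvd.intro (y ^ 2) rfl : (X : S) ∣ X * y ^ 2)
      simpa using this
    exact PowerSeries.X_prime.dvd_of_dvd_pow h1
  | succ n ih =>
    intro x y h
    have h0 : (X : S) ∣ x ^ 2 + X * y ^ 2 := (dvd_pow_self X (by omega)).trans h
    have h1 : (X : S) ∣ x ^ 2 := by
      have := dvd_sub h0 (Dvd.intro (y ^ 2) rfl : (X : S) ∣ X * y ^ 2)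
      simpa using this
    obtain ⟨w, rfl⟩ := PowerSeries.X_prime.dvd_of_dvd_pow h1
    have h2 : (X : S) ^ 2 ∣ (X * w) ^ 2 + X * y ^ 2 := (pow_dvd_pow X (by omega)).trans h
    have h3 : (X : S) ^ 2 ∣ X * y ^ 2 := by
      have := dvd_sub h2 (⟨w ^ 2, by ring⟩ : (X : S) ^ 2 ∣ (X * w) ^ 2)
      simpa using this
    rw [pow_two X] at h3
    have h4 := (mul_dvd_mul_iff_left X_ne).1 h3
    obtain ⟨v, rfl⟩ := PowerSeries.X_prime.dvd_of_dvd_pow h4
    have e : (X : S) ^ (2 * (n + 1) + 1) = X ^ 2 * X ^ (2 * n + 1) := by ring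
    have e2 : (X * w) ^ 2 + X * (X * v) ^ 2 = X ^ 2 * (w ^ 2 + X * v ^ 2) := by ring
    rw [e, e2] at h
    have h5 := (mul_dvd_mul_iff_left (pow_ne_zero 2 X_ne)).1 h
    rw [pow_succ']
    exact mul_dvd_mul_left X (ih w v h5)

theorem approx0 {t : ℕ} (ht : Odd t) {U V : F} (hV : V.coeff 0 = 1) {N : ℕ}
    (h : (X : S) ^ N ∣ (V : S) * P ^ t + (U : S)) : N ≤ 64 * (U.natDegree + V.natDegree) + 1 := by
  by_contra hN
  push Not at hN
  have hU : U.coeff 0 = 1 := by
    have h6 := (PowerSeries.X_pow_dvd_iff.1 h) 0 (by omega)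
    rw [coeff_zero_eq_constantCoeff_apply, map_add, map_mul, map_pow, constP, const_coe, const_coe,
      hV, one_pow] at h6
    have h7 : ∀ a : ZMod 2, 1 * 1 + a = 0 → a = 1 := by decide
    exact h7 _ h6
  obtain ⟨M, rfl⟩ : ∃ M, N = M + 1 := ⟨N - 1, by omega⟩
  have hr := rel ht h
  set W : F := (U * e3 U) * (V * e3 V) with hW
  have hWS : ((W : F) : S) = ((U : S) * c3 (U : S)) * ((V : S) * c3 (V : S)) := by
    rw [hW]
    push_cast
    rw [coe_e3, coe_e3]
  rw [← hWS] at hr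
  have hW0 : W.coeff 0 = 1 := by
    rw [hW, Polynomial.mul_coeff_zero, Polynomial.mul_coeff_zero, Polynomial.mul_coeff_zero,
      e3_coeff_zero, e3_coeff_zero, hU, hV]
    norm_num
  have hWd : W.natDegree ≤ 4 * (U.natDegree + V.natDegree) := by
    have q1 := Polynomial.natDegree_mul_le (p := U * e3 U) (q := V * e3 V)
    have q2 := Polynomial.natDegree_mul_le (p := U) (q := e3 U)
    have q3 := Polynomial.natDegree_mul_le (p := V) (q := e3 V)
    rw [natDegree_e3] at q2 q3
    rw [hW]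
    omega
  obtain ⟨f0, f1, f2, f3, hf, hd0, hd1⟩ := exists_four W
  have hfS : ((W : F) : S) = (f0 : S) ^ 4 + X * (f1 : S) ^ 4 + X ^ 2 * (f2 : S) ^ 4 +
      X ^ 3 * (f3 : S) ^ 4 := by
    rw [hf]
    push_cast
    ring
  have hD1 : D ((W : F) : S) = (f1 : S) ^ 4 + X ^ 2 * (f3 : S) ^ 4 := by
    rw [hfS, map_add, map_add, map_add, D_four, D_Xfour, D_X2four, D_X3four]
    ring
  have hD2 : D (X * ((W : F) : S)) = (f0 : S) ^ 4 + X ^ 2 * (f2 : S) ^ 4 := by
    have e : X * ((W : F) : S) = X * (f0 : S) ^ 4 + X ^ 2 * (f1 : S) ^ 4 + X ^ 3 * (f2 : S) ^ 4 +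
        (X * (f3 : S)) ^ 4 := by
      rw [hfS]
      ring
    rw [e, map_add, map_add, map_add, D_four, D_Xfour, D_X2four, D_X3four]
    ring
  rw [hD1, hD2] at hr
  have e4 : ((f1 : S) ^ 4 + X ^ 2 * (f3 : S) ^ 4) * T ^ 4 + ((f0 : S) ^ 4 + X ^ 2 * (f2 : S) ^ 4) * c3 T ^ 4 =
      (((f1 : S) * T + (f0 : S) * c3 T) ^ 2 + X * ((f3 : S) * T + (f2 : S) * c3 T) ^ 2) ^ 2 := by
    have a1 := add_four ((f1 : S) * T) ((f0 : S) * c3 T)
    have a2 := add_four ((f3 : S) * T) ((f2 : S) * c3 T)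
    have a3 := add_sq (((f1 : S) * T + (f0 : S) * c3 T) ^ 2) (X * ((f3 : S) * T + (f2 : S) * c3 T) ^ 2)
    rw [a3]
    linear_combination -a1 - X ^ 2 * a2
  rw [e4] at hr
  set n := (M - 1) / 4 with hn
  have h1 : (X : S) ^ (2 * (2 * n) + 1) ∣
      (((f1 : S) * T + (f0 : S) * c3 T) ^ 2 + X * ((f3 : S) * T + (f2 : S) * c3 T) ^ 2) ^ 2 :=
    (pow_dvd_pow X (by omega)).trans hr
  have h2 := sqX_dvd n _ _ (sq_dvd (2 * n) _ h1)
  have hf0 : f0.coeff 0 = 1 := by
    have h3 := congrArg constantCoeff hfS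
    simp only [map_add, map_mul, map_pow, constantCoeff_X, const_coe, hW0, zero_mul, add_zero,
      ne_eq, OfNat.ofNat_ne_zero, not_false_eq_true, zero_pow] at h3
    have h8 : ∀ a : ZMod 2, (1 : ZMod 2) = a ^ 4 → a = 1 := by decide
    exact h8 _ h3
  have hf1 : f1 ≠ 0 := by
    intro h0
    have h6 := (PowerSeries.X_pow_dvd_iff.1 h2) 0 (by omega)
    rw [coeff_zero_eq_constantCoeff_apply, map_add, map_mul, map_mul, const_coe, const_coe, constc3, constT,
      hf0, h0] at h6
    simp at h6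
  have hd1' := hd1 hf1
  have := rho_bound (ε := f1) (γ := f0) (B := 16 * (U.natDegree + V.natDegree) - 3) (n := n + 1)
    (by omega) (by omega) (by omega) hf0 h2
  omega

theorem approx {t : ℕ} (ht : Odd t) : ∀ (N : ℕ) (U V : F), V ≠ 0 →
    (X : S) ^ N ∣ (V : S) * P ^ t + (U : S) → N ≤ 64 * (U.natDegree + V.natDegree) + 1 := by
  intro N
  induction N with
  | zero => intros; omega
  | succ N ih =>
    intro U V hV h
    by_cases h0 : V.coeff 0 = 0
    · have hU : U.coeff 0 = 0 := by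
        have h6 := (PowerSeries.X_pow_dvd_iff.1 h) 0 (by omega)
        rw [coeff_zero_eq_constantCoeff_apply, map_add, map_mul, map_pow, constP, const_coe, const_coe,
          h0, zero_mul, zero_add] at h6
        exact h6
      obtain ⟨V', rfl⟩ := Polynomial.X_dvd_iff.2 h0
      obtain ⟨U', rfl⟩ := Polynomial.X_dvd_iff.2 hU
      have hV' : V' ≠ 0 := by
        rintro rfl
        simp at hV
      have e : ((Polynomial.X * V' : F) : S) * P ^ t + ((Polynomial.X * U' : F) : S) =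
          X * ((V' : S) * P ^ t + (U' : S)) := by
        push_cast
        ring
      rw [e, pow_succ'] at h
      have h1 := ih U' V' hV' ((mul_dvd_mul_iff_left X_ne).1 h)
      have h2 : (Polynomial.X * V').natDegree = V'.natDegree + 1 := by
        rw [Polynomial.natDegree_mul Polynomial.X_ne_zero hV', Polynomial.natDegree_X]
        ring
      have h3 : U'.natDegree ≤ (Polynomial.X * U').natDegree := by
        by_cases hU0 : U' = 0
        · rw [hU0]; simp
        · rw [Polynomial.natDegree_mul Polynomial.X_ne_zero hU0]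
          omega
      omega
    · have h1 : ∀ a : ZMod 2, a ≠ 0 → a = 1 := by decide
      exact approx0 ht (h1 _ h0) h

end Pool.Agent.TH693.PP
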