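import Pool.Agent.TH693.PP.Rho

set_option autoImplicit false

/-!
# Rational approximations of odd powers of the partition generating function
-/

namespace Pool.Agent.TH693.PP

open PowerSeries

/-- the derivative -/
noncomputable abbrev D : Derivation (ZMod 2) S S := PowerSeries.derivative (ZMod 2)

theorem four_zero : (4 : S) = 0 := by linear_combination 2 * two_zero

theorem D_mul (a b : S) : D (a * b) = a * D b + b * D a := by
  rw [Derivation.leibniz, smul_eq_mul, smul_eq_mul]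

theorem D_pow (a : S) (n : ℕ) : D (a ^ n) = n * a ^ (n - 1) * D a := by
  rw [Derivation.leibniz_pow, nsmul_eq_mul, smul_eq_mul, mul_assoc]

theorem D_four (a : S) : D (a ^ 4) = 0 := by
  rw [D_pow]
  push_cast
  linear_combination (a ^ 3 * D a) * four_zero

theorem D_X : D (X : S) = 1 := PowerSeries.derivative_X

theorem D_Xfour (a : S) : D (X * a ^ 4) = a ^ 4 := by
  rw [D_mul, D_four, D_X]
  ring

theorem D_X2four (a : S) : D (X ^ 2 * a ^ 4) = 0 := by
  rw [D_mul, D_four, D_pow, D_X]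
  push_cast
  linear_combination (X * a ^ 4) * two_zero

theorem D_X3four (a : S) : D (X ^ 3 * a ^ 4) = X ^ 2 * a ^ 4 := by
  rw [D_mul, D_four, D_pow, D_X]
  push_cast
  linear_combination (X ^ 2 * a ^ 4) * two_zero

theorem P3T : P ^ 3 * T = 1 := by
  unfold T
  rw [← mul_pow, P_mul_E, one_pow]

theorem modT' : T * c3 T = T ^ 4 + X * c3 T ^ 4 := by
  linear_combination -modT - (X * c3 T ^ 4) * two_zero

theorem D_Q : D (T * c3 T) = c3 T ^ 4 := by
  rw [modT', map_add, D_four, D_Xfour, zero_add]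

theorem D_G {t : ℕ} (ht : Odd t) :
    D ((P * c3 P) ^ t) * (T * c3 T) = (P * c3 P) ^ t * c3 T ^ 4 := by
  obtain ⟨s, rfl⟩ := ht
  set G := (P * c3 P) ^ (2 * s + 1) with hG
  set Q := T * c3 T with hQ
  have h1 : G ^ 3 * Q ^ (2 * s + 1) = 1 := by
    rw [hG, ← pow_mul, mul_comm (2 * s + 1) 3, pow_mul, ← mul_pow, hQ]
    have h2 : (P * c3 P) ^ 3 * (T * c3 T) = (P ^ 3 * T) * c3 (P ^ 3 * T) := by
      rw [map_mul, map_pow]
      ring
    rw [h2, P3T, map_one, one_mul, one_pow]
  have h2 := congrArg D h1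
  rw [D_mul, D_pow, D_pow, hQ, D_Q, ← hQ] at h2
  have h3 : D (1 : S) = 0 := Derivation.map_one_eq_zero _
  rw [h3] at h2
  have hGc : constantCoeff G = 1 := by
    rw [hG, map_pow, map_mul, constc3, constP, one_mul, one_pow]
  have hQc : constantCoeff Q = 1 := by
    rw [hQ, map_mul, constc3, constT, one_mul]
  clear_value G Q
  have h4 : G ^ 2 * Q ^ (2 * s) * (D G * Q + G * c3 T ^ 4) = 0 := by
    simp only [Nat.add_sub_cancel] at h2
    push_cast at h2
    linear_combination h2 - (G ^ 3 * Q ^ (2 * s) * c3 T ^ 4 * s + Q ^ (2 * s + 1) * G ^ 2 * D G) * two_zero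
  have h5 : IsUnit (G ^ 2 * Q ^ (2 * s)) := by
    apply unit_of
    rw [map_mul, map_pow, map_pow, hGc, hQc, one_pow, one_pow, one_mul]
  have h6 := (h5.mul_right_eq_zero).1 h4
  exact eq_of_add h6

/-- the differential relation -/
theorem rel {t : ℕ} (ht : Odd t) {U V : S} {M : ℕ} (h : (X : S) ^ (M + 1) ∣ V * P ^ t + U) :
    (X : S) ^ M ∣ D ((U * c3 U) * (V * c3 V)) * T ^ 4 +
      D (X * ((U * c3 U) * (V * c3 V))) * c3 T ^ 4 := by
  obtain ⟨w, hw⟩ := h
  have hw3 := congrArg c3 hw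
  rw [map_add, map_mul, map_mul, map_pow, map_pow, c3_X] at hw3
  set G := (P * c3 P) ^ t with hG
  set H := U * c3 U with hH
  set K := V * c3 V with hK
  set Y : S := X ^ M with hY
  have hX : (X : S) ^ (M + 1) = X * Y := by rw [hY]; ring
  have hX3 : ((X : S) ^ 3) ^ (M + 1) = (X * Y) ^ 3 := by rw [hY]; ring
  rw [hX] at hw
  rw [hX3] at hw3
  -- K G = H + X Y z
  obtain ⟨z, hz⟩ : ∃ z : S, K * G = H + X * Y * z := by
    refine ⟨w * c3 U + U * ((X * Y) ^ 2 * c3 w) + w * (X * Y) ^ 3 * c3 w, ?_⟩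
    have e : K * G = (V * P ^ t) * (c3 V * c3 P ^ t) := by
      rw [hK, hG, mul_pow]
      ring
    have e1 : V * P ^ t = U + X * Y * w := by linear_combination hw - U * two_zero
    have e2 : c3 V * c3 P ^ t = c3 U + (X * Y) ^ 3 * c3 w := by
      linear_combination hw3 - c3 U * two_zero
    rw [e, e1, e2, hH]
    ring
  have hd := congrArg D hz
  have hDX : D (X * Y) = (M + 1) * Y := by
    rw [← hX, D_pow, D_X, Nat.add_sub_cancel]
    push_cast
    rw [hY]
    ring
  rw [D_mul, map_add, D_mul (X * Y) z, hDX] at hd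
  have hg : D G * (T * c3 T) = G * c3 T ^ 4 := D_G ht
  clear_value G H K Y
  rw [D_mul X (H * K), D_X, D_mul H K]
  have hm := modT'
  refine ⟨(X * D z + z * ((M : S) + 1)) * K * (T * c3 T) + X * z * (D K * (T * c3 T) + K * c3 T ^ 4), ?_⟩
  linear_combination K * (T * c3 T) * hd - (D K * (T * c3 T) + K * c3 T ^ 4) * hz - K ^ 2 * hg -
    (H * D K + K * D H) * hm +
    (K * D H * (T * c3 T) - X * Y * z * (D K * (T * c3 T) + K * c3 T ^ 4)) * two_zero

end Pool.Agent.TH693.PP
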