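import Pool.Agent.TH693.PP.Root
import Pool.Agent.TH693.PP.Combo

set_option autoImplicit false

/-!
# Rational approximations of the partition generating function modulo 2: constant 12
-/

namespace Pool.Agent.TH693.PP

open PowerSeries

theorem modP : P * c3 P = (E ^ 2 * c3 P) ^ 4 + X * (c3 E ^ 2 * P) ^ 4 := by
  have h := modT
  unfold T at h
  rw [map_pow] at h
  have h1 := P_mul_E
  have h2 : c3 P * c3 E = 1 := by rw [← map_mul, h1, map_one]
  generalize c3 P = p at *
  generalize c3 E = f at *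
  generalize P = a at *
  generalize E = e at *
  have e1 : e ^ 8 * p ^ 4 = (a * e) ^ 4 * (e ^ 8 * p ^ 4) := by rw [h1]; ring
  have e2 : a * p = (a * e) ^ 3 * (p * f) ^ 3 * (a * p) := by rw [h1, h2]; ring
  have e3 : f ^ 8 * a ^ 4 = (p * f) ^ 4 * (f ^ 8 * a ^ 4) := by rw [h2]; ring
  linear_combination e2 - e1 - X * e3 - a ^ 4 * p ^ 4 * h - X * a ^ 4 * p ^ 4 * f ^ 12 * two_zero

theorem coeffE_pent (j : ℤ) : coeff (pentagonal j) E = 1 := by
  classical
  unfold E
  rw [Pool.Agent.H397R2.PP.TH.pent_eq, Pool.Agent.H397R2.PP.TH.coeff_ind, if_pos ⟨j, rfl⟩]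

theorem exists_pent (v : ℕ) : ∃ g, v < g ∧ g ≤ 12 * v + 1 ∧ coeff g E = 1 := by
  set j := Nat.sqrt v with hj
  have h1 : j * j ≤ v := Nat.sqrt_le v
  have h2 : v < (j + 1) * (j + 1) := Nat.lt_succ_sqrt v
  have h3 : 2 * pentagonal (j + 1 : ℤ) = (j + 1) * (3 * j + 2) := by
    have := two_mul_natCast_pentagonal (j + 1 : ℤ)
    zify
    rw [this]
    ring
  refine ⟨pentagonal (j + 1 : ℤ), ?_, ?_, coeffE_pent _⟩
  · nlinarith
  · have h4 : j ≤ j * j := Nat.le_mul_self j
    nlinarith

theorem sqid (a b c : S) : ((a + b) ^ 2 + X * c ^ 2) ^ 2 = a ^ 4 + b ^ 4 + X ^ 2 * c ^ 4 := by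
  rw [add_sq a b, add_sq (a ^ 2 + b ^ 2) (X * c ^ 2), add_sq (a ^ 2) (b ^ 2)]
  ring

theorem approx1_cop {U V : F} (hc : IsCoprime U V) (hU : U.coeff 0 = 1) {N : ℕ}
    (h : (X : S) ^ N ∣ (V : S) * P + (U : S)) : N ≤ 12 * (U.natDegree + V.natDegree) + 1 := by
  by_contra hN
  push Not at hN
  obtain ⟨w, hw⟩ := h
  have hw3 := congrArg c3 hw
  rw [map_add, map_mul, map_mul, map_pow, c3_X] at hw3
  -- the polynomial `W`
  set W : F := (U * e3 U) * (V * e3 V) ^ 3 with hW
  have hWS : ((W : F) : S) = ((U : S) * c3 (U : S)) * ((V : S) * c3 (V : S)) ^ 3 := by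
    rw [hW]
    push_cast
    rw [coe_e3, coe_e3]
  have hWd : W.natDegree ≤ 4 * U.natDegree + 12 * V.natDegree := by
    have q1 := Polynomial.natDegree_mul_le (p := U * e3 U) (q := (V * e3 V) ^ 3)
    have q2 := Polynomial.natDegree_mul_le (p := U) (q := e3 U)
    have q3 := Polynomial.natDegree_mul_le (p := V) (q := e3 V)
    have q4 := Polynomial.natDegree_pow_le (p := V * e3 V) (n := 3)
    rw [natDegree_e3] at q2 q3
    rw [hW]
    omega
  obtain ⟨f0, f1, f2, f3, hf, hd0, -⟩ := exists_four W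
  have hfS : ((W : F) : S) = (f0 : S) ^ 4 + X * (f1 : S) ^ 4 + X ^ 2 * (f2 : S) ^ 4 +
      X ^ 3 * (f3 : S) ^ 4 := by
    rw [hf]
    push_cast
    ring
  rw [hWS] at hfS
  set n := 3 * (U.natDegree + V.natDegree) with hn
  obtain ⟨m, hm⟩ : ∃ m, N = (n + 1) + m := ⟨N - (n + 1), by omega⟩
  have hZ3 : ((X : S) ^ 3) ^ N = (X ^ N) ^ 3 := by ring
  rw [hZ3] at hw3
  have hZ : (X : S) ^ N = X ^ (n + 1) * X ^ m := by rw [hm, pow_add]
  -- the key congruence
  have hK : (X : S) ^ (2 * (2 * n) + 1) ∣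
      ((((V : S) * c3 V) * (E ^ 2 * c3 P) + (f0 : S)) ^ 2 + X * (f2 : S) ^ 2) ^ 2 +
      X * ((((V : S) * c3 V) * (c3 E ^ 2 * P) + (f1 : S)) ^ 2 + X * (f3 : S) ^ 2) ^ 2 := by
    refine (pow_dvd_pow X (by omega : 2 * (2 * n) + 1 ≤ N)).trans ?_
    have hmod := modP
    rw [sqid, sqid]
    generalize (X : S) ^ N = Z at *
    generalize c3 P = p at *
    generalize c3 E = f at *
    generalize P = a at *
    generalize E = e at *
    generalize c3 (U : S) = u3 at *
    generalize c3 (V : S) = v3 at *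
    generalize c3 w = w3 at *
    generalize (U : S) = u at *
    generalize (V : S) = v at *
    generalize (f0 : S) = g0 at *
    generalize (f1 : S) = g1 at *
    generalize (f2 : S) = g2 at *
    generalize (f3 : S) = g3 at *
    have hz : (v * v3) * (a * p) = u * u3 + Z * (w * u3 + u * Z ^ 2 * w3 + Z ^ 3 * w * w3) := by
      linear_combination (v3 * p) * hw + (Z * w - u) * hw3 - (Z * w * u3 +
        u * Z ^ 3 * w3) * two_zero
    refine ⟨(v * v3) ^ 3 * (w * u3 + u * Z ^ 2 * w3 + Z ^ 3 * w * w3), ?_⟩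
    linear_combination (v * v3) ^ 3 * hz - (v * v3) ^ 4 * hmod - hfS + u * u3 * (v * v3) ^ 3 * two_zero
  have h2 := sqX_dvd n _ _ (sqX_dvd (2 * n) _ _ hK)
  obtain ⟨s, hs⟩ := h2
  have h3 : (V : S) + (U : S) * E = X ^ N * (w * E) := by
    linear_combination E * hw - (V : S) * P_mul_E
  have hfin : (X : S) ^ (n + 1) ∣ ((V ^ 3 * e3 U + f0 * U ^ 2 : F) : S) := by
    push_cast
    rw [coe_e3]
    have hq : (V : S) ^ 2 + ((U : S) * E) ^ 2 = (X ^ N) ^ 2 * (w * E) ^ 2 := by
      rw [← add_sq, h3]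
      ring
    generalize (X : S) ^ N = Z at *
    generalize (X : S) ^ (n + 1) = Y at *
    generalize (X : S) ^ m = M at *
    generalize c3 P = p at *
    generalize E = e at *
    generalize c3 (U : S) = u3 at *
    generalize c3 (V : S) = v3 at *
    generalize c3 w = w3 at *
    generalize (U : S) = u at *
    generalize (V : S) = v at *
    generalize (f0 : S) = g0 at *
    refine ⟨u ^ 2 * s + M * (v * (u * e) ^ 2 * Z ^ 2 * w3 + v * Z * (w * e) ^ 2 * (v3 * p + Z ^ 3 * w3)),
      ?_⟩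
    linear_combination u ^ 2 * hs + (v * (u * e) ^ 2 * Z ^ 2 * w3 +
      v * Z * (w * e) ^ 2 * (v3 * p + Z ^ 3 * w3)) * hZ + v * u3 * hq +
      v * (Z ^ 2 * (w * e) ^ 2 - (u * e) ^ 2) * hw3 -
      (v * Z ^ 2 * (w * e) ^ 2 * v3 * p + v * (u * e) ^ 2 * Z ^ 3 * w3) * two_zero
  have hdeg : (V ^ 3 * e3 U + f0 * U ^ 2).natDegree < n + 1 := by
    have q0 := Polynomial.natDegree_add_le (V ^ 3 * e3 U) (f0 * U ^ 2)
    have q1 := Polynomial.natDegree_mul_le (p := V ^ 3) (q := e3 U)
    have q2 := Polynomial.natDegree_mul_le (p := f0) (q := U ^ 2)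
    have q3 := Polynomial.natDegree_pow_le (p := V) (n := 3)
    have q4 := Polynomial.natDegree_pow_le (p := U) (n := 2)
    rw [natDegree_e3] at q1
    omega
  have hzero := eq_zero_of_dvd hfin hdeg
  have hdvd : U ^ 2 ∣ V ^ 3 * e3 U := ⟨-f0, by linear_combination hzero⟩
  have hcop : IsCoprime (U ^ 2) (V ^ 3) := hc.pow
  have hd := natDegree_eq_zero hU (hcop.dvd_of_dvd_mul_left hdvd)
  have hU1 : U = 1 := by
    rw [Polynomial.eq_C_of_natDegree_eq_zero hd, hU, map_one]
  obtain ⟨g, hg1, hg2, hg3⟩ := exists_pent V.natDegree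
  have h4 := congrArg (coeff g) h3
  rw [map_add, Polynomial.coeff_coe, Polynomial.coeff_eq_zero_of_natDegree_lt hg1, hU1,
    Polynomial.coe_one, one_mul, hg3, zero_add] at h4
  have h5 := (PowerSeries.X_pow_dvd_iff.1 (Dvd.intro (w * E) rfl : (X : S) ^ N ∣ X ^ N * (w * E)))
    g (by omega)
  rw [h5] at h4
  exact one_ne_zero h4

theorem approx1 : Bd 12 P := by
  intro N
  induction N with
  | zero => intros; omega
  | succ N ih =>
    intro U V hV h
    by_cases h0 : V.coeff 0 = 0
    · have hU : U.coeff 0 = 0 := by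
        have h6 := (PowerSeries.X_pow_dvd_iff.1 h) 0 (by omega)
        rw [coeff_zero_eq_constantCoeff_apply, map_add, map_mul, constP, const_coe, const_coe,
          h0, zero_mul, zero_add] at h6
        exact h6
      obtain ⟨V', rfl⟩ := Polynomial.X_dvd_iff.2 h0
      obtain ⟨U', rfl⟩ := Polynomial.X_dvd_iff.2 hU
      have hV' : V' ≠ 0 := by
        rintro rfl
        simp at hV
      have e : ((Polynomial.X * V' : F) : S) * P + ((Polynomial.X * U' : F) : S) =
          X * ((V' : S) * P + (U' : S)) := by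
        push_cast
        ring
      rw [e, pow_succ'] at h
      have h1 := ih U' V' hV' ((mul_dvd_mul_iff_left X_ne).1 h)
      have h2 : (Polynomial.X * V').natDegree = V'.natDegree + 1 := by
        rw [Polynomial.natDegree_mul Polynomial.X_ne_zero hV', Polynomial.natDegree_X]
        ring
      have h3 : U'.natDegree ≤ (Polynomial.X * U').natDegree := by
        by_cases hU0 : U' = 0
        · rw [hU0]; simp
        · rw [Polynomial.natDegree_mul Polynomial.X_ne_zero hU0]
          omega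
      omega
    · have h1 : ∀ a : ZMod 2, a ≠ 0 → a = 1 := by decide
      have hV1 := h1 _ h0
      have hU1 : U.coeff 0 = 1 := by
        have h6 := (PowerSeries.X_pow_dvd_iff.1 h) 0 (by omega)
        rw [coeff_zero_eq_constantCoeff_apply, map_add, map_mul, constP, const_coe, const_coe,
          hV1] at h6
        have h7 : ∀ a : ZMod 2, 1 * 1 + a = 0 → a = 1 := by decide
        exact h7 _ h6
      set g := EuclideanDomain.gcd U V with hg
      have g1 : g ∣ U := EuclideanDomain.gcd_dvd_left _ _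
      have g2 : g ∣ V := EuclideanDomain.gcd_dvd_right _ _
      obtain ⟨U', hU'⟩ := g1
      obtain ⟨V', hV'⟩ := g2
      have hg0 : g ≠ 0 := by
        intro h0
        rw [h0, zero_mul] at hV'
        exact hV hV'
      have hcop : IsCoprime U' V' := by
        have h8 := EuclideanDomain.gcd_eq_gcd_ab U V
        rw [← hg] at h8
        refine ⟨EuclideanDomain.gcdA U V, EuclideanDomain.gcdB U V, ?_⟩
        apply mul_left_cancel₀ hg0
        linear_combination -h8 - EuclideanDomain.gcdA U V * hU' - EuclideanDomain.gcdB U V * hV'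
      have hmul : ∀ a b : ZMod 2, a * b = 1 → a = 1 ∧ b = 1 := by decide
      have hc0 : g.coeff 0 = 1 ∧ V'.coeff 0 = 1 := by
        rw [hV', Polynomial.mul_coeff_zero] at hV1
        exact hmul _ _ hV1
      have hc1 : g.coeff 0 = 1 ∧ U'.coeff 0 = 1 := by
        rw [hU', Polynomial.mul_coeff_zero] at hU1
        exact hmul _ _ hU1
      have h' : (X : S) ^ (N + 1) ∣ (V' : S) * P + (U' : S) := by
        apply dvd_cancel (a := (g : S)) (by rw [const_coe, hc0.1])
        rw [hU', hV'] at h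
        push_cast at h
        convert h using 1
        ring
      have hU0' : U' ≠ 0 := by
        rintro rfl
        simp at hc1
      have hV0' : V' ≠ 0 := by
        rintro rfl
        simp at hc0
      have d1 : U'.natDegree ≤ U.natDegree := by
        rw [hU', Polynomial.natDegree_mul hg0 hU0']
        omega
      have d2 : V'.natDegree ≤ V.natDegree := by
        rw [hV', Polynomial.natDegree_mul hg0 hV0']
        omega
      have := approx1_cop hcop hc1.2 h'
      omega

end Pool.Agent.TH693.PP
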