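import Pool.Agent.TH693.PP.Base

set_option autoImplicit false

/-!
# Rational approximations of `T (X ^ 3) / T (X)`
-/

namespace Pool.Agent.TH693.PP

open PowerSeries

abbrev F := Polynomial (ZMod 2)

/-- substitution `X → X ^ 3` in polynomials -/
noncomputable def e3 : F →ₐ[ZMod 2] F := Polynomial.expand (ZMod 2) 3

theorem coe_e3 (f : F) : ((e3 f : F) : S) = c3 (f : S) := by
  ext n
  unfold e3 c3
  rw [Polynomial.coeff_coe, Polynomial.coeff_expand (by norm_num), PowerSeries.coeff_expand]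
  split_ifs with h
  · rw [Polynomial.coeff_coe]
  · rfl

theorem const_coe (f : F) : constantCoeff (f : S) = f.coeff 0 := by
  rw [← coeff_zero_eq_constantCoeff_apply, Polynomial.coeff_coe]

theorem e3_coeff_zero (f : F) : (e3 f).coeff 0 = f.coeff 0 := by
  unfold e3
  rw [Polynomial.coeff_expand (by norm_num)]
  simp

theorem natDegree_e3 (f : F) : (e3 f).natDegree = 3 * f.natDegree := by
  unfold e3
  rw [Polynomial.natDegree_expand]
  ring

/-- a polynomial of small degree divisible by `X ^ n` is zero -/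
theorem eq_zero_of_dvd {f : F} {n : ℕ} (h : (X : S) ^ n ∣ (f : S)) (hd : f.natDegree < n) : f = 0 := by
  ext i
  rcases lt_or_ge i n with hi | hi
  · have := (PowerSeries.X_pow_dvd_iff.1 h) i hi
    rw [Polynomial.coeff_coe] at this
    rw [this, Polynomial.coeff_zero]
  · rw [Polynomial.coeff_eq_zero_of_natDegree_lt (by omega), Polynomial.coeff_zero]

theorem coprime_X {f : F} (h : f.coeff 0 = 1) : IsCoprime f Polynomial.X := by
  refine ⟨1, -f.divX, ?_⟩
  have h2 := Polynomial.divX_mul_X_add f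
  rw [h, Polynomial.C_1] at h2
  linear_combination -h2

/-- the resultant polynomial -/
noncomputable def Th (ε γ : F) : F :=
  (e3 γ ^ 4 + Polynomial.X ^ 3 * e3 ε ^ 4) * (ε ^ 3 * γ) +
    e3 γ ^ 3 * e3 ε * (γ ^ 4 + Polynomial.X * ε ^ 4)

theorem Th_ne {ε γ : F} (hc : IsCoprime ε γ) (hε : ε.coeff 0 = 1) (hγ : γ.coeff 0 = 1) :
    Th ε γ ≠ 0 := by
  intro h0
  have hε0 : ε ≠ 0 := by
    rintro rfl
    simp at hε
  have hγ0 : γ ≠ 0 := by
    rintro rfl
    simp at hγ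
  have h3ε : e3 ε ≠ 0 := by
    intro h
    have := e3_coeff_zero ε
    rw [h, hε] at this
    simp at this
  have h3γ : e3 γ ≠ 0 := by
    intro h
    have := e3_coeff_zero γ
    rw [h, hγ] at this
    simp at this
  have hX : (Polynomial.X : F) ≠ 0 := Polynomial.X_ne_zero
  -- divisibility
  have hd : e3 γ ^ 3 ∣ (Polynomial.X ^ 3 * e3 ε ^ 4) * (ε ^ 3 * γ) := by
    refine ⟨-(e3 γ * (ε ^ 3 * γ) + e3 ε * (γ ^ 4 + Polynomial.X * ε ^ 4)), ?_⟩
    unfold Th at h0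
    linear_combination h0
  have hc3 : IsCoprime (e3 γ) (e3 ε) := (hc.map e3.toRingHom).symm
  have hcX : IsCoprime (e3 γ) Polynomial.X := coprime_X (by rw [e3_coeff_zero, hγ])
  have hcc : IsCoprime (e3 γ ^ 3) (Polynomial.X ^ 3 * e3 ε ^ 4) :=
    IsCoprime.pow_left (IsCoprime.mul_right hcX.pow_right hc3.pow_right)
  have hd2 : e3 γ ^ 3 ∣ ε ^ 3 * γ := hcc.dvd_of_dvd_mul_left hd
  have hdeg := Polynomial.natDegree_le_of_dvd hd2 (mul_ne_zero (pow_ne_zero _ hε0) hγ0)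
  rw [Polynomial.natDegree_mul (pow_ne_zero _ hε0) hγ0, Polynomial.natDegree_pow,
    Polynomial.natDegree_pow, natDegree_e3] at hdeg
  -- degrees
  have hge : γ.natDegree ≤ ε.natDegree := by omega
  have hA : (e3 γ ^ 4 + Polynomial.X ^ 3 * e3 ε ^ 4).natDegree = 12 * ε.natDegree + 3 := by
    rw [Polynomial.natDegree_add_eq_right_of_natDegree_lt]
    · rw [Polynomial.natDegree_mul (pow_ne_zero _ hX) (pow_ne_zero _ h3ε), Polynomial.natDegree_X_pow,
        Polynomial.natDegree_pow, natDegree_e3]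
      ring
    · rw [Polynomial.natDegree_mul (pow_ne_zero _ hX) (pow_ne_zero _ h3ε), Polynomial.natDegree_X_pow,
        Polynomial.natDegree_pow, natDegree_e3, Polynomial.natDegree_pow, natDegree_e3]
      omega
  have hB : (γ ^ 4 + Polynomial.X * ε ^ 4).natDegree = 4 * ε.natDegree + 1 := by
    rw [Polynomial.natDegree_add_eq_right_of_natDegree_lt]
    · rw [Polynomial.natDegree_mul hX (pow_ne_zero _ hε0), Polynomial.natDegree_X,
        Polynomial.natDegree_pow]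
      ring
    · rw [Polynomial.natDegree_mul hX (pow_ne_zero _ hε0), Polynomial.natDegree_X,
        Polynomial.natDegree_pow, Polynomial.natDegree_pow]
      omega
  have hA0 : (e3 γ ^ 4 + Polynomial.X ^ 3 * e3 ε ^ 4) ≠ 0 := by
    intro h
    rw [h] at hA
    simp at hA
  have hB0 : (γ ^ 4 + Polynomial.X * ε ^ 4) ≠ 0 := by
    intro h
    rw [h] at hB
    simp at hB
  have heq : (e3 γ ^ 4 + Polynomial.X ^ 3 * e3 ε ^ 4) * (ε ^ 3 * γ) =
      -(e3 γ ^ 3 * e3 ε * (γ ^ 4 + Polynomial.X * ε ^ 4)) := by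
    unfold Th at h0
    linear_combination h0
  have h5 := congrArg Polynomial.natDegree heq
  rw [Polynomial.natDegree_neg, Polynomial.natDegree_mul hA0 (mul_ne_zero (pow_ne_zero _ hε0) hγ0), hA,
    Polynomial.natDegree_mul (pow_ne_zero _ hε0) hγ0, Polynomial.natDegree_pow,
    Polynomial.natDegree_mul (mul_ne_zero (pow_ne_zero _ h3γ) h3ε) hB0, hB,
    Polynomial.natDegree_mul (pow_ne_zero _ h3γ) h3ε, Polynomial.natDegree_pow, natDegree_e3,
    natDegree_e3] at h5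
  omega

theorem Th_dvd {ε γ : F} (hγ : γ.coeff 0 = 1) {n : ℕ}
    (h : (X : S) ^ n ∣ (ε : S) * T + (γ : S) * c3 T) : (X : S) ^ n ∣ ((Th ε γ : F) : S) := by
  obtain ⟨w, hw⟩ := h
  set a := T with ha
  set b := c3 a with hb
  set x : S := (ε : S) with hx
  set y : S := (γ : S) with hy
  have hm : a ^ 4 = a * b + X * b ^ 4 := modT
  have hyb : y * b = x * a + X ^ n * w := by
    linear_combination hw + (-x * a) * two_zero
  -- (A)
  have hA : (X : S) ^ n ∣ (y ^ 4 + X * x ^ 4) * a ^ 2 + y ^ 3 * x := by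
    apply dvd_cancel (a := a ^ 2) (by rw [map_pow, ha, constT, one_pow])
    have h4 : (y * b) ^ 4 = (x * a) ^ 4 + (X ^ n * w) ^ 4 := by rw [hyb, add_four]
    refine ⟨y ^ 3 * a * w + X * (X ^ (3 * n) * w ^ 4), ?_⟩
    linear_combination y ^ 4 * hm + y ^ 3 * a * hyb + X * h4 + (y ^ 3 * x * a ^ 2 +
      X * x ^ 4 * a ^ 4) * two_zero
  obtain ⟨s, hs⟩ := hA
  -- (B)
  have hB : (X : S) ^ n ∣ (c3 y ^ 4 + X ^ 3 * c3 x ^ 4) * b ^ 2 + c3 y ^ 3 * c3 x := by
    have h5 := congrArg c3 hs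
    simp only [map_add, map_mul, map_pow, c3_X] at h5
    rw [← hb] at h5
    rw [h5]
    refine ⟨X ^ (2 * n) * c3 s, ?_⟩
    ring
  obtain ⟨r, hr⟩ := hB
  apply dvd_cancel (a := y ^ 2) (by rw [map_pow, hy, const_coe, hγ, one_pow])
  have hT : ((Th ε γ : F) : S) = (c3 y ^ 4 + X ^ 3 * c3 x ^ 4) * (x ^ 3 * y) +
      c3 y ^ 3 * c3 x * (y ^ 4 + X * x ^ 4) := by
    unfold Th
    push_cast
    rw [coe_e3, coe_e3]
  rw [hT]
  have h2 : (y * b) ^ 2 = (x * a) ^ 2 + (X ^ n * w) ^ 2 := by rw [hyb, add_sq]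
  refine ⟨r * y ^ 2 * (y ^ 4 + X * x ^ 4) + s * (c3 y ^ 4 + X ^ 3 * c3 x ^ 4) * x ^ 2 +
    (c3 y ^ 4 + X ^ 3 * c3 x ^ 4) * (y ^ 4 + X * x ^ 4) * (X ^ n * w ^ 2), ?_⟩
  linear_combination y ^ 2 * (y ^ 4 + X * x ^ 4) * hr + (c3 y ^ 4 + X ^ 3 * c3 x ^ 4) * x ^ 2 * hs -
    (c3 y ^ 4 + X ^ 3 * c3 x ^ 4) * (y ^ 4 + X * x ^ 4) * h2 -
    (c3 y ^ 4 + X ^ 3 * c3 x ^ 4) * (y ^ 4 + X * x ^ 4) * (x * a) ^ 2 * two_zero -
    (c3 y ^ 4 + X ^ 3 * c3 x ^ 4) * (y ^ 4 + X * x ^ 4) * (X ^ n * w) ^ 2 * two_zero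

theorem Th_deg {ε γ : F} {B : ℕ} (h1 : 13 * γ.natDegree + 3 * ε.natDegree ≤ B)
    (h2 : 15 * ε.natDegree + γ.natDegree + 3 ≤ B) (h3 : 9 * γ.natDegree + 7 * ε.natDegree + 1 ≤ B) :
    (Th ε γ).natDegree ≤ B := by
  unfold Th
  have hX : (Polynomial.X : F).natDegree = 1 := Polynomial.natDegree_X
  have p1 := Polynomial.natDegree_pow_le (p := e3 γ) (n := 4)
  have p2 := Polynomial.natDegree_pow_le (p := e3 ε) (n := 4)
  have p3 := Polynomial.natDegree_pow_le (p := ε) (n := 3)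
  have p4 := Polynomial.natDegree_pow_le (p := e3 γ) (n := 3)
  have p5 := Polynomial.natDegree_pow_le (p := γ) (n := 4)
  have p6 := Polynomial.natDegree_pow_le (p := ε) (n := 4)
  have p7 := Polynomial.natDegree_X_pow (R := ZMod 2) 3
  have q1 := Polynomial.natDegree_mul_le (p := (Polynomial.X : F) ^ 3) (q := e3 ε ^ 4)
  have q2 := Polynomial.natDegree_add_le (e3 γ ^ 4) (Polynomial.X ^ 3 * e3 ε ^ 4)
  have q3 := Polynomial.natDegree_mul_le (p := ε ^ 3) (q := γ)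
  have q4 := Polynomial.natDegree_mul_le (p := e3 γ ^ 4 + Polynomial.X ^ 3 * e3 ε ^ 4) (q := ε ^ 3 * γ)
  have q5 := Polynomial.natDegree_mul_le (p := (Polynomial.X : F)) (q := ε ^ 4)
  have q6 := Polynomial.natDegree_add_le (γ ^ 4) (Polynomial.X * ε ^ 4)
  have q7 := Polynomial.natDegree_mul_le (p := e3 γ ^ 3) (q := e3 ε)
  have q8 := Polynomial.natDegree_mul_le (p := e3 γ ^ 3 * e3 ε) (q := γ ^ 4 + Polynomial.X * ε ^ 4)
  refine (Polynomial.natDegree_add_le _ _).trans ?_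
  simp only [natDegree_e3] at *
  omega

/-- the bound for approximations of `T (X ^ 3) / T (X)` -/
theorem rho_bound {ε γ : F} {B n : ℕ} (h1 : 13 * γ.natDegree + 3 * ε.natDegree ≤ B)
    (h2 : 15 * ε.natDegree + γ.natDegree + 3 ≤ B) (h3 : 9 * γ.natDegree + 7 * ε.natDegree + 1 ≤ B)
    (hγ : γ.coeff 0 = 1) (h : (X : S) ^ n ∣ (ε : S) * T + (γ : S) * c3 T) : n ≤ B := by
  by_contra hn
  push Not at hn
  have hγ0 : γ ≠ 0 := by
    rintro rfl
    simp at hγ
  set g := EuclideanDomain.gcd ε γ with hg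
  have g1 : g ∣ ε := EuclideanDomain.gcd_dvd_left _ _
  have g2 : g ∣ γ := EuclideanDomain.gcd_dvd_right _ _
  obtain ⟨ε', hε'⟩ := g1
  obtain ⟨γ', hγ'⟩ := g2
  have hg0 : g ≠ 0 := by
    intro h0
    rw [h0, zero_mul] at hγ'
    exact hγ0 hγ'
  have hcop : IsCoprime ε' γ' := by
    have h8 := EuclideanDomain.gcd_eq_gcd_ab ε γ
    rw [← hg] at h8
    refine ⟨EuclideanDomain.gcdA ε γ, EuclideanDomain.gcdB ε γ, ?_⟩
    apply mul_left_cancel₀ hg0
    linear_combination -h8 - EuclideanDomain.gcdA ε γ * hε' - EuclideanDomain.gcdB ε γ * hγ'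
  have hmul : ∀ a b : ZMod 2, a * b = 1 → a = 1 ∧ b = 1 := by decide
  have hc0 : g.coeff 0 = 1 ∧ γ'.coeff 0 = 1 := by
    rw [hγ', Polynomial.mul_coeff_zero] at hγ
    exact hmul _ _ hγ
  have h' : (X : S) ^ n ∣ (ε' : S) * T + (γ' : S) * c3 T := by
    apply dvd_cancel (a := (g : S)) (by rw [const_coe, hc0.1])
    rw [hε', hγ'] at h
    push_cast at h
    convert h using 1
    ring
  have hε1 : ε'.coeff 0 = 1 := by
    have h6 := (PowerSeries.X_pow_dvd_iff.1 h') 0 (by omega)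
    rw [coeff_zero_eq_constantCoeff_apply, map_add, map_mul, map_mul, const_coe, const_coe, constc3, constT,
      hc0.2] at h6
    have h7 : ∀ a : ZMod 2, a * 1 + 1 * 1 = 0 → a = 1 := by decide
    exact h7 _ h6
  have hε0 : ε' ≠ 0 := by
    rintro rfl
    simp at hε1
  have hγ0' : γ' ≠ 0 := by
    rintro rfl
    simp at hc0
  have d1 : ε'.natDegree ≤ ε.natDegree := by
    rw [hε', Polynomial.natDegree_mul hg0 hε0]
    omega
  have d2 : γ'.natDegree ≤ γ.natDegree := by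
    rw [hγ', Polynomial.natDegree_mul hg0 hγ0']
    omega
  have hdeg := Th_deg (ε := ε') (γ := γ') (B := B) (by omega) (by omega) (by omega)
  exact Th_ne hcop hε1 hc0.2 (eq_zero_of_dvd (Th_dvd hc0.2 h') (by omega))

end Pool.Agent.TH693.PP
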