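import Pool.Agent.TH693.PP.Main

set_option autoImplicit false

/-!
# A polynomial whose square divides `U (X ^ 3)` is constant
-/

namespace Pool.Agent.TH693.PP

open Polynomial

theorem step {K : Type*} [Field K] [CharP K 2] {U : K[X]} (hU : U ≠ 0)
    (h : U ^ 2 ∣ Polynomial.expand K 3 U) {β : K} (hβ : β ≠ 0) :
    2 * U.rootMultiplicity β ≤ U.rootMultiplicity (β ^ 3) := by
  obtain ⟨W, hW1, hW2⟩ := Polynomial.exists_eq_pow_rootMultiplicity_mul_and_not_dvd U hU (β ^ 3)
  set μ := U.rootMultiplicity (β ^ 3) with hμ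
  set m := U.rootMultiplicity β with hm
  by_contra hlt
  push Not at hlt
  have h1 : (X - C β) ^ (μ + 1) ∣ Polynomial.expand K 3 U := by
    refine (pow_dvd_pow _ (by omega : μ + 1 ≤ m * 2)).trans ?_
    rw [pow_mul]
    exact (pow_dvd_pow_of_dvd (Polynomial.pow_rootMultiplicity_dvd U β) 2).trans h
  have h2 : Polynomial.expand K 3 U =
      (X - C β) ^ μ * ((X ^ 2 + C β * X + C β ^ 2) ^ μ * Polynomial.expand K 3 W) := by
    conv_lhs => rw [hW1]
    rw [map_mul, map_pow, map_sub, Polynomial.expand_X, Polynomial.expand_C, ← mul_assoc, ← mul_pow]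
    congr 2
    rw [map_pow]
    ring
  rw [h2, pow_succ] at h1
  have hX : (X - C β : K[X]) ^ μ ≠ 0 := pow_ne_zero _ (Polynomial.X_sub_C_ne_zero β)
  have h3 := (mul_dvd_mul_iff_left hX).1 h1
  rw [Polynomial.dvd_iff_isRoot, Polynomial.IsRoot.def, Polynomial.eval_mul, Polynomial.eval_pow,
    Polynomial.expand_eval] at h3
  have h4 : (X ^ 2 + C β * X + C β ^ 2 : K[X]).eval β = β ^ 2 := by
    simp only [Polynomial.eval_add, Polynomial.eval_mul, Polynomial.eval_pow, Polynomial.eval_X,
      Polynomial.eval_C]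
    have h2 : (2 : K) = 0 := by
      have := CharP.cast_eq_zero K 2
      exact_mod_cast this
    linear_combination β ^ 2 * h2
  rw [h4] at h3
  rcases mul_eq_zero.1 h3 with h5 | h5
  · exact hβ (pow_eq_zero_iff (by norm_num) |>.1 (eq_zero_of_pow_eq_zero h5))
  · exact hW2 (Polynomial.dvd_iff_isRoot.2 h5)

theorem natDegree_eq_zero {U : F} (h0 : U.coeff 0 = 1) (h : U ^ 2 ∣ e3 U) : U.natDegree = 0 := by
  classical
  by_contra hd
  let K := AlgebraicClosure (ZMod 2)
  let φ := algebraMap (ZMod 2) K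
  have : CharP K 2 := charP_of_injective_algebraMap (algebraMap (ZMod 2) K).injective 2
  set U' : K[X] := U.map φ with hU'
  have hinj : Function.Injective φ := φ.injective
  have hnd : U'.natDegree = U.natDegree := Polynomial.natDegree_map φ
  have hU0 : U' ≠ 0 := by
    intro h1
    rw [h1] at hnd
    simp at hnd
    exact hd hnd.symm
  have hc : U'.coeff 0 = 1 := by
    rw [hU', Polynomial.coeff_map, h0, map_one]
  have hdvd : U' ^ 2 ∣ Polynomial.expand K 3 U' := by
    have h1 := Polynomial.map_dvd φ h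
    rw [Polynomial.map_pow] at h1
    unfold e3 at h1
    rwa [Polynomial.map_expand] at h1
  obtain ⟨α, hα⟩ := IsAlgClosed.exists_root U' (by
    intro h1
    rw [Polynomial.degree_eq_natDegree hU0, hnd] at h1
    exact hd (by exact_mod_cast h1))
  have hα0 : α ≠ 0 := by
    rintro rfl
    rw [Polynomial.IsRoot.def, ← Polynomial.coeff_zero_eq_eval_zero, hc] at hα
    exact one_ne_zero hα
  have hm : 1 ≤ U'.rootMultiplicity α := (Polynomial.rootMultiplicity_pos hU0).2 hα
  have key : ∀ k : ℕ, 2 ^ k ≤ U'.rootMultiplicity (α ^ 3 ^ k) := by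
    intro k
    induction k with
    | zero => simpa using hm
    | succ k ih =>
      have := step hU0 hdvd (pow_ne_zero (3 ^ k) hα0)
      rw [← pow_mul, ← pow_succ] at this
      rw [pow_succ]
      omega
  have h1 := key U'.natDegree
  have h2 : U'.rootMultiplicity (α ^ 3 ^ U'.natDegree) ≤ U'.natDegree := by
    rw [← Polynomial.count_roots]
    exact (Multiset.count_le_card _ _).trans (Polynomial.card_roots' _)
  have h3 := Nat.lt_two_pow_self (n := U'.natDegree)
  omega

end Pool.Agent.TH693.PP
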